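import Pool.Agent.Zk18.Th.Stm

/-!
# The number of terms of `f (ℓ (s))`
-/

set_option autoImplicit false

namespace Pool.Agent.Zk50.Th18

open Polynomial

section terms

variable {κ : Type*} [Field κ] [CharZero κ]

omit [CharZero κ] in
theorem coeff_theta (p : κ[X]) (e k : ℕ) :
    (X * derivative p - C (e : κ) * p).coeff k = ((k : κ) - e) * p.coeff k := by
  rw [coeff_sub, coeff_C_mul]
  cases k with
  | zero =>
    rw [coeff_X_mul_zero]
    push_cast
    ring
  | succ k =>
    rw [coeff_X_mul, coeff_derivative]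
    push_cast
    ring

theorem support_theta (p : κ[X]) (e : ℕ) :
    (X * derivative p - C (e : κ) * p).support = p.support.erase e := by
  ext k
  rw [mem_support_iff, coeff_theta, Finset.mem_erase, mem_support_iff, Ne, mul_eq_zero, not_or,
    sub_eq_zero, Nat.cast_inj]

/-- A polynomial with a zero `z ≠ 0` of multiplicity `a` has at least `a + 1` terms. -/
theorem card_terms {z : κ} (hz : z ≠ 0) (a : ℕ) : ∀ p : κ[X], p ≠ 0 → (X - C z) ^ a ∣ p →
    a + 1 ≤ p.support.card := by
  induction a with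
  | zero =>
    intro p hp _
    rw [zero_add, Nat.one_le_iff_ne_zero, Ne, Finset.card_eq_zero, support_eq_empty]
    exact hp
  | succ a ih =>
    intro p hp hdvd
    obtain ⟨e, he⟩ : p.support.Nonempty := by
      rwa [Finset.nonempty_iff_ne_empty, Ne, support_eq_empty]
    have h1 : (X - C z) ^ a ∣ derivative p := by
      have := pow_sub_one_dvd_derivative_of_pow_dvd hdvd
      simpa using this
    have h2 : (X - C z) ^ a ∣ X * derivative p - C (e : κ) * p :=
      dvd_sub (h1.mul_left X) (((pow_dvd_pow _ (Nat.le_succ a)).trans hdvd).mul_left _)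
    have h3 : X * derivative p - C (e : κ) * p ≠ 0 := by
      intro h0
      have h4 : p.support = {e} := by
        have h5 := support_theta p e
        rw [h0, support_zero] at h5
        refine Finset.eq_singleton_iff_unique_mem.2 ⟨he, fun k hk => ?_⟩
        by_contra hne
        have : k ∈ p.support.erase e := Finset.mem_erase.2 ⟨hne, hk⟩
        rw [← h5] at this
        simp at this
      have h5 : p.eval z = 0 := by
        have h6 : (X - C z) ∣ p := (dvd_pow_self _ (Nat.succ_ne_zero a)).trans hdvd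
        exact dvd_iff_isRoot.1 h6
      rw [eval_eq_sum, Polynomial.sum, h4, Finset.sum_singleton] at h5
      exact (mem_support_iff.1 he) ((mul_eq_zero.1 h5).resolve_right (pow_ne_zero _ hz))
    have h4 := ih _ h3 h2
    rw [support_theta, Finset.card_erase_of_mem he] at h4
    omega

theorem card_pow {g : κ[X]} {z : κ} (hz : z ≠ 0) (hg : g ≠ 0) (h : g.eval z = 0) (a : ℕ) :
    a + 1 ≤ (g ^ a).support.card :=
  card_terms hz a _ (pow_ne_zero a hg) (pow_dvd_pow_of_dvd (dvd_iff_isRoot.2 h) a)

end terms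

/-- The valuation ring: it contains `K`, and `x⁻¹` is in the maximal ideal. -/
theorem exists_ring {K E : Type} [Field K] [Field E] [Algebra K E] {x : E}
    (hx : Transcendental K x) : ∃ (O : ValuationSubring E) (iK : K →+* O) (y : O),
      (∀ c, ((iK c : O) : E) = algebraMap K E c) ∧ ((y : O) : E) = x⁻¹ ∧
      IsLocalRing.residue O y = 0 := by
  classical
  have hy : Transcendental K x⁻¹ := by
    intro h
    have := h.inv
    rw [inv_inv] at this
    exact hx this
  let β : K[X] →+* E := (aeval x⁻¹ : K[X] →ₐ[K] E)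
  have hβ : Function.Injective β := by
    have := transcendental_iff_injective.1 hy
    exact this
  let 𝔮 : Ideal K[X] := RingHom.ker (constantCoeff : K[X] →+* K)
  have h𝔮 : 𝔮.IsPrime := RingHom.ker_isPrime _
  have hunit : ∀ z : 𝔮.primeCompl, IsUnit (β z) := by
    intro z
    apply IsUnit.mk0
    intro h0
    apply z.2
    have h1 : (z : K[X]) = 0 := hβ (h0.trans (map_zero β).symm)
    rw [h1]
    exact 𝔮.zero_mem
  let βl : Localization.AtPrime 𝔮 →+* E := IsLocalization.lift hunit
  have hβl : ∀ z, βl (algebraMap _ _ z) = β z := fun z => IsLocalization.lift_eq hunit z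
  obtain ⟨O, hO, hloc⟩ := IsLocalRing.exists_factor_valuationRing βl
  let ρ : K[X] →+* O := (βl.codRestrict O.toSubring hO).comp (algebraMap _ _)
  have hρ : ∀ z, ((ρ z : O) : E) = β z := by
    intro z
    exact hβl z
  have hρ𝔮 : ∀ z, z ∈ 𝔮 → IsLocalRing.residue O (ρ z) = 0 := by
    intro z hz
    rw [IsLocalRing.residue_eq_zero_iff, IsLocalRing.mem_maximalIdeal, mem_nonunits_iff]
    intro hu
    have h1 : IsUnit (algebraMap K[X] (Localization.AtPrime 𝔮) z) :=
      hloc.map_nonunit _ hu
    have h2 := (IsLocalization.AtPrime.isUnit_to_map_iff (Localization.AtPrime 𝔮) 𝔮 z).mp h1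
    exact h2 hz
  refine ⟨O, ρ.comp C, ρ X, fun c => ?_, ?_, ?_⟩
  · rw [RingHom.comp_apply, hρ]
    exact aeval_C x⁻¹ c
  · rw [hρ]
    exact aeval_X x⁻¹
  · apply hρ𝔮
    change constantCoeff X = (0 : K)
    simp

theorem main {K E : Type} [Field K] [CharZero K] [Field E] [IsAlgClosed E] [Algebra K E]
    (f : K[X]) (ℓ : E[X]) (hx : Transcendental K (ℓ.coeff 0)) (hℓ : ℓ.natDegree ≠ 0)
    (hf : f ≠ 0) : f.natDegree + 1 ≤ (((f.map (algebraMap K E)).comp ℓ).support).card := by
  classical
  obtain ⟨x, hxe⟩ : ∃ x, x = ℓ.coeff 0 := ⟨_, rfl⟩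
  rw [← hxe] at hx
  have hx0 : x ≠ 0 := fun h => hx (h ▸ isAlgebraic_zero)
  obtain ⟨O, iK, y, hiK, hy, hyr⟩ := exists_ring hx
  -- the residue field, algebraically closed
  let κ := AlgebraicClosure (IsLocalRing.ResidueField O)
  let π : O →+* κ := (algebraMap (IsLocalRing.ResidueField O) κ).comp (IsLocalRing.residue O)
  have hπy : π y = 0 := by
    change algebraMap _ κ (IsLocalRing.residue O y) = 0
    rw [hyr, map_zero]
  have hchar : CharZero κ := charZero_of_injective_ringHom (π.comp iK).injective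
  -- rescaling
  have hroot : ∀ k, ∃ r : E, k ≠ 0 → ℓ.coeff k ≠ 0 → r ^ k * ℓ.coeff k = x := by
    intro k
    by_cases h : k ≠ 0 ∧ ℓ.coeff k ≠ 0
    · obtain ⟨r, hr⟩ := IsAlgClosed.exists_pow_nat_eq (x * (ℓ.coeff k)⁻¹) (Nat.pos_of_ne_zero h.1)
      exact ⟨r, fun _ _ => by rw [hr, mul_assoc, inv_mul_cancel₀ h.2, mul_one]⟩
    · exact ⟨0, fun h1 h2 => absurd ⟨h1, h2⟩ h⟩
  choose r hr using hroot
  let T : Finset ℕ := ℓ.support.erase 0
  have hT : ∀ k, k ∈ T ↔ k ≠ 0 ∧ ℓ.coeff k ≠ 0 := by
    intro k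
    simp only [T, Finset.mem_erase, mem_support_iff]
  have hTne : T.Nonempty := ⟨ℓ.natDegree, (hT _).2 ⟨hℓ, by
    intro h
    have h1 : ℓ.leadingCoeff = 0 := h
    rw [leadingCoeff_eq_zero] at h1
    rw [h1] at hℓ
    simp at hℓ⟩⟩
  obtain ⟨k₀, hmem, hmin⟩ := Finset.exists_min_image T (fun k => O.valuation (r k)) hTne
  obtain ⟨hk₀, hck₀⟩ := (hT k₀).1 hmem
  obtain ⟨t, ht⟩ : ∃ t, t = r k₀ := ⟨_, rfl⟩
  have hyO : x⁻¹ ∈ O := by
    rw [← hy]
    exact y.2
  have hcO : ∀ k, ℓ.coeff k * t ^ k * x⁻¹ ∈ O := by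
    intro k
    by_cases hk : k = 0
    · subst hk
      rw [pow_zero, mul_one, ← hxe, mul_inv_cancel₀ hx0]
      exact O.one_mem
    · by_cases hck : ℓ.coeff k = 0
      · rw [hck, zero_mul, zero_mul]
        exact O.zero_mem
      · rw [← O.valuation_le_one_iff]
        have h1 := hmin k ((hT k).2 ⟨hk, hck⟩)
        have h2 : O.valuation t ^ k ≤ O.valuation (r k) ^ k := by
          rw [ht]
          exact pow_le_pow_left' h1 k
        have h3 : r k ^ k * ℓ.coeff k * x⁻¹ = 1 := by rw [hr k hk hck, mul_inv_cancel₀ hx0]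
        have h4 := congrArg O.valuation h3
        rw [map_mul, map_mul, map_pow, map_one] at h4
        rw [map_mul, map_mul, map_pow, ← h4, mul_comm (O.valuation (ℓ.coeff k))]
        gcongr
  let m : O[X] := ∑ k ∈ Finset.range (ℓ.natDegree + 1),
    monomial k (⟨ℓ.coeff k * t ^ k * x⁻¹, hcO k⟩ : O)
  have hmc : ∀ k, ((m.coeff k : O) : E) = ℓ.coeff k * t ^ k * x⁻¹ := by
    intro k
    simp only [m, finsetSum_coeff, coeff_monomial]
    rw [Finset.sum_ite_eq']
    split_ifs with h
    · rfl
    · rw [Finset.mem_range, not_lt] at h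
      rw [coeff_eq_zero_of_natDegree_lt (by omega), zero_mul, zero_mul]
      rfl
  have hmE : C x * m.map (algebraMap O E) = ℓ.comp (C t * X) := by
    ext k
    rw [coeff_C_mul, coeff_map, comp_C_mul_X_coeff]
    have h1 : algebraMap O E (m.coeff k) = ℓ.coeff k * t ^ k * x⁻¹ := hmc k
    rw [h1]
    field_simp
  -- the reduction
  have hm0 : m.coeff 0 = 1 := by
    apply Subtype.ext
    rw [hmc, pow_zero, mul_one, ← hxe, mul_inv_cancel₀ hx0]
    rfl
  have hmk : m.coeff k₀ = 1 := by
    apply Subtype.ext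
    rw [hmc, ht, mul_comm (ℓ.coeff k₀), hr k₀ hk₀ hck₀, mul_inv_cancel₀ hx0]
    rfl
  let g : κ[X] := m.map π
  have hg0 : g.coeff 0 = 1 := by rw [coeff_map, hm0, map_one]
  have hgk : g.coeff k₀ = 1 := by rw [coeff_map, hmk, map_one]
  have hgne : g ≠ 0 := by
    intro h
    rw [h, coeff_zero] at hg0
    exact zero_ne_one hg0
  have hgdeg : g.degree ≠ 0 := by
    intro h
    have h1 : g.natDegree = 0 := natDegree_eq_zero_iff_degree_le_zero.2 h.le
    have h2 : k₀ ≤ g.natDegree := le_natDegree_of_ne_zero (by rw [hgk]; exact one_ne_zero)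
    omega
  obtain ⟨z, hz⟩ := IsAlgClosed.exists_root g hgdeg
  have hz0 : z ≠ 0 := by
    rintro rfl
    have h1 : g.eval 0 = 0 := hz
    rw [← coeff_zero_eq_eval_zero, hg0] at h1
    exact one_ne_zero h1
  -- the composite
  obtain ⟨a, ha⟩ : ∃ a, a = f.natDegree := ⟨_, rfl⟩
  let FO : O[X] := ∑ j ∈ Finset.range (a + 1), C (iK (f.coeff j)) * C (y ^ (a - j)) * m ^ j
  have hFE : FO.map (algebraMap O E) =
      C (x⁻¹ ^ a) * ((f.map (algebraMap K E)).comp ℓ).comp (C t * X) := by
    have h1 : ((f.map (algebraMap K E)).comp ℓ).comp (C t * X) =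
        ∑ j ∈ Finset.range (a + 1), C (algebraMap K E (f.coeff j)) *
          (C x * m.map (algebraMap O E)) ^ j := by
      rw [comp_assoc, ← hmE, ha, comp, eval₂_map, eval₂_eq_sum_range]
      rfl
    rw [h1, Finset.mul_sum, Polynomial.map_sum]
    refine Finset.sum_congr rfl fun j hj => ?_
    have hja : j ≤ a := Nat.lt_succ_iff.1 (Finset.mem_range.1 hj)
    have e1 : algebraMap O E (iK (f.coeff j)) = algebraMap K E (f.coeff j) := hiK _
    have e2 : algebraMap O E y = x⁻¹ := hy
    rw [Polynomial.map_mul, Polynomial.map_mul, map_C, map_C, Polynomial.map_pow, map_pow, e1, e2,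
      mul_pow]
    have e3 : x⁻¹ ^ a * x ^ j = x⁻¹ ^ (a - j) := by
      have e4 : x⁻¹ ^ a = x⁻¹ ^ (a - j) * x⁻¹ ^ j := by
        rw [← pow_add, Nat.sub_add_cancel hja]
      rw [e4, mul_assoc, ← mul_pow, inv_mul_cancel₀ hx0, one_pow, mul_one]
    rw [← e3, C_mul, C_pow (a := x)]
    ring
  have hFπ : FO.map π = C (π (iK (f.coeff a))) * g ^ a := by
    rw [Polynomial.map_sum, Finset.sum_range_succ, Finset.sum_eq_zero, zero_add]
    · rw [Polynomial.map_mul, Polynomial.map_mul, map_C, map_C, Polynomial.map_pow, Nat.sub_self,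
        pow_zero, map_one, C_1, mul_one]
    · intro j hj
      have hja : a - j ≠ 0 := by
        have := Finset.mem_range.1 hj
        omega
      rw [Polynomial.map_mul, Polynomial.map_mul, map_C, map_C, map_pow, hπy, zero_pow hja, C_0,
        mul_zero, zero_mul]
  have hfa : π (iK (f.coeff a)) ≠ 0 := by
    have h1 : f.coeff a ≠ 0 := by
      rw [ha]
      exact leadingCoeff_ne_zero.2 hf
    intro h
    exact h1 ((map_eq_zero_iff (π.comp iK) (π.comp iK).injective).1 h)
  have hsub : (g ^ a).support ⊆ ((f.map (algebraMap K E)).comp ℓ).support := by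
    intro k hk
    rw [mem_support_iff] at hk ⊢
    intro h0
    have h1 := congrArg (fun p => p.coeff k) hFE
    simp only [coeff_map, coeff_C_mul, comp_C_mul_X_coeff, h0, zero_mul, mul_zero] at h1
    have h2 : FO.coeff k = 0 := by
      apply Subtype.ext
      exact h1
    have h3 := congrArg (fun p => p.coeff k) hFπ
    simp only [coeff_map, coeff_C_mul, h2, map_zero] at h3
    exact (mul_ne_zero hfa hk) h3.symm
  rw [← ha]
  exact (card_pow hz0 hgne hz a).trans (Finset.card_le_card hsub)

theorem t_TERMS : Pool.Agent.Zk18.Th.S_TERMS := by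
  intro K U _ _ _ _ f ℓ hx hℓ
  classical
  by_cases hf : f = 0
  · subst hf
    simp
  let E := AlgebraicClosure U
  have hinj : Function.Injective (algebraMap U E) := (algebraMap U E).injective
  have h1 := main (K := K) (E := E) f (ℓ.map (algebraMap U E)) (by
    rw [coeff_map]
    intro h
    exact hx ((isAlgebraic_algebraMap_iff hinj).1 h)) (by
    rwa [natDegree_map_eq_of_injective hinj]) hf
  have h2 : (f.map (algebraMap K E)).comp (ℓ.map (algebraMap U E)) =
      ((f.map (algebraMap K U)).comp ℓ).map (algebraMap U E) := by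
    rw [Polynomial.map_comp, Polynomial.map_map, ← IsScalarTower.algebraMap_eq]
  rw [h2, support_map_of_injective _ hinj] at h1
  have h3 := Finset.pred_card_le_card_erase (s := ((f.map (algebraMap K U)).comp ℓ).support)
    (a := 0)
  omega

end Pool.Agent.Zk50.Th18
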